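import Mathlib

set_option autoImplicit false

/-!
# The Banach space part of the counterexample

If `J : G → V` is bounded, `i : E → V` is an isomorphic embedding of an infinite-dimensional
Hilbert space `E`, and a dense subspace of `E` lifts boundedly through `J`, then the quotient
`G ⧸ ker J` contains an isomorphic copy of `E`, and in particular a closed infinite-dimensional
subspace without isomorphic copies of `c₀`.
-/

namespace Pool.Agent.J6H38.C0Sat

open scoped ZeroAtInfty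

section lift

variable {G V E : Type*} [NormedAddCommGroup G] [NormedSpace ℝ G] [CompleteSpace G]
  [NormedAddCommGroup V] [NormedSpace ℝ V] [NormedAddCommGroup E] [NormedSpace ℝ E]

theorem lift_all (J : G →L[ℝ] V) (i : E →L[ℝ] V) {δ C : ℝ} (hδ : 0 < δ) (hC : 0 < C)
    (hi : ∀ x, ‖x‖ ≤ δ * ‖i x‖) (D : Submodule ℝ E) (hD : Dense (D : Set E))
    (lift : ∀ y ∈ D, ∃ g, J g = i y ∧ ‖g‖ ≤ C * ‖y‖) :
    ∃ C', 0 < C' ∧ ∀ x : E, ∃ g : G, J g = i x ∧ ‖g‖ ≤ C' * ‖x‖ := by
  let f : NormedAddGroupHom G V :=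
    AddMonoidHom.mkNormedAddGroupHom J.toLinearMap.toAddMonoidHom ‖J‖ (fun v => J.le_opNorm v)
  have hf : ∀ g, f g = J g := fun g => rfl
  let H : AddSubgroup V := (D.map i.toLinearMap).toAddSubgroup
  have hyp : f.SurjectiveOnWith H (C * δ) := by
    rintro h ⟨y, hy, rfl⟩
    obtain ⟨g, hg1, hg2⟩ := lift y hy
    refine ⟨g, hg1, hg2.trans ?_⟩
    have := hi y
    calc C * ‖y‖ ≤ C * (δ * ‖i y‖) := by gcongr
      _ = C * δ * ‖i.toLinearMap y‖ := by rw [mul_assoc]; rfl
  have h2 := controlled_closure_of_complete (mul_pos hC hδ) one_pos hyp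
  refine ⟨(C * δ + 1) * (‖i‖ + 1), by positivity, fun x => ?_⟩
  have hx : i x ∈ H.topologicalClosure := by
    have h3 : x ∈ closure (D : Set E) := hD x
    have h4 : Set.MapsTo i (D : Set E) (H : Set V) := by
      intro y hy
      exact ⟨y, hy, rfl⟩
    exact map_mem_closure i.continuous h3 h4
  obtain ⟨g, hg1, hg2⟩ := h2 (i x) hx
  refine ⟨g, hg1, hg2.trans ?_⟩
  have h5 : ‖i x‖ ≤ (‖i‖ + 1) * ‖x‖ := by
    refine (i.le_opNorm x).trans ?_
    gcongr
    linarith
  calc (C * δ + 1) * ‖i x‖ ≤ (C * δ + 1) * ((‖i‖ + 1) * ‖x‖) := by gcongr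
    _ = _ := by ring

end lift

section main

variable {G V E : Type} [NormedAddCommGroup G] [NormedSpace ℝ G] [CompleteSpace G]
  [NormedAddCommGroup V] [NormedSpace ℝ V] [NormedAddCommGroup E] [InnerProductSpace ℝ E]
  [CompleteSpace E]

/-- unit vectors of `C₀(ℕ, ℝ)` -/
noncomputable def e (n : ℕ) : C₀(ℕ, ℝ) where
  toFun := Pi.single n 1
  continuous_toFun := continuous_of_discreteTopology
  zero_at_infty' := by
    rw [Filter.cocompact_eq_cofinite]
    apply tendsto_const_nhds.congr'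
    have : ({n} : Set ℕ)ᶜ ∈ (Filter.cofinite : Filter ℕ) := by
      rw [Filter.mem_cofinite, compl_compl]; exact Set.finite_singleton n
    filter_upwards [this] with m hm
    rw [Pi.single_eq_of_ne hm]

lemma e_apply_self (n : ℕ) : e n n = 1 := by
  change (Pi.single n 1 : ℕ → ℝ) n = 1
  simp

lemma e_apply_ne {n m : ℕ} (h : m ≠ n) : e n m = 0 := by
  change (Pi.single n 1 : ℕ → ℝ) m = 0
  simp [h]

lemma c0_norm_le {f : C₀(ℕ, ℝ)} {C : ℝ} (hC : 0 ≤ C) (h : ∀ n, |f n| ≤ C) : ‖f‖ ≤ C := by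
  rw [← ZeroAtInftyContinuousMap.norm_toBCF_eq_norm]
  rw [BoundedContinuousFunction.norm_le hC]
  exact h

lemma c0_apply_le (f : C₀(ℕ, ℝ)) (n : ℕ) : |f n| ≤ ‖f‖ := by
  rw [← ZeroAtInftyContinuousMap.norm_toBCF_eq_norm]
  exact BoundedContinuousFunction.norm_coe_le_norm f.toBCF n

lemma one_le_norm_e (n : ℕ) : 1 ≤ ‖e n‖ := by
  have := c0_apply_le (e n) n
  rwa [e_apply_self, abs_one] at this

theorem main_abstract (J : G →L[ℝ] V) (i : E →L[ℝ] V) {δ C : ℝ} (hδ : 0 < δ) (hC : 0 < C)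
    (hi : ∀ x, ‖x‖ ≤ δ * ‖i x‖) (D : Submodule ℝ E) (hD : Dense (D : Set E))
    (lift : ∀ y ∈ D, ∃ g, J g = i y ∧ ‖g‖ ≤ C * ‖y‖) (hE : ¬ FiniteDimensional ℝ E) :
    ∃ (X : Type) (_ : NormedAddCommGroup X) (_ : NormedSpace ℝ X) (_ : CompleteSpace X),
      (∃ T : G →L[ℝ] X, Function.Surjective T) ∧
      ∃ Y : Submodule ℝ X, IsClosed (Y : Set X) ∧ ¬ FiniteDimensional ℝ Y ∧
        ¬ ∃ S : C₀(ℕ, ℝ) →L[ℝ] X, (∀ f, S f ∈ Y) ∧
          ∃ c : ℝ, 0 < c ∧ ∀ f, c * ‖f‖ ≤ ‖S f‖ := by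
  obtain ⟨C', hC', hlift⟩ := lift_all J i hδ hC hi D hD lift
  let Z : Submodule ℝ G := LinearMap.ker J.toLinearMap
  have hmem : ∀ g, g ∈ Z ↔ J g = 0 := fun g => LinearMap.mem_ker
  have hZ : IsClosed (Z : Set G) := J.isClosed_ker
  have hrange : IsClosed (Set.range i) := by
    have h1 : AntilipschitzWith (Real.toNNReal δ) i := by
      apply AddMonoidHomClass.antilipschitz_of_bound
      intro x
      rw [Real.coe_toNNReal δ hδ.le]
      exact hi x
    exact h1.isClosed_range i.uniformContinuous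
  let W : Submodule ℝ G := (LinearMap.range i.toLinearMap).comap J.toLinearMap
  have hWmem : ∀ g, g ∈ W ↔ ∃ x, i x = J g := fun g => Iff.rfl
  have hW : IsClosed (W : Set G) := by
    have : (W : Set G) = J ⁻¹' (Set.range i) := by
      ext g; exact hWmem g
    rw [this]
    exact hrange.preimage J.continuous
  let Y : Submodule ℝ (G ⧸ Z) := W.map Z.mkQ
  have hYmem : ∀ g : G, Z.mkQ g ∈ Y ↔ g ∈ W := by
    intro g
    constructor
    · rintro ⟨g', hg', hgg⟩
      have h1 : g' - g ∈ Z := (Submodule.Quotient.eq Z).1 hgg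
      rw [hmem, map_sub, sub_eq_zero] at h1
      rw [hWmem, ← h1]
      exact (hWmem g').1 hg'
    · intro h
      exact ⟨g, h, rfl⟩
  have hY : IsClosed (Y : Set (G ⧸ Z)) := by
    have hq : Topology.IsQuotientMap (Z.mkQ : G → G ⧸ Z) := by
      exact (Submodule.isOpenQuotientMap_mkQ Z).isQuotientMap
    rw [← hq.isClosed_preimage]
    have : (Z.mkQ : G → G ⧸ Z) ⁻¹' (Y : Set (G ⧸ Z)) = (W : Set G) := by
      ext g; exact hYmem g
    rw [this]
    exact hW
  refine ⟨G ⧸ Z, inferInstance, inferInstance, inferInstance, ?_, Y, hY, ?_, ?_⟩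
  · refine ⟨⟨Z.mkQ, ?_⟩, ?_⟩
    · exact (Submodule.isOpenQuotientMap_mkQ Z).continuous
    · exact Z.mkQ_surjective
  · intro hfin
    apply hE
    let Jbar : (G ⧸ Z) →ₗ[ℝ] V := Z.liftQ J.toLinearMap le_rfl
    have h1 : FiniteDimensional ℝ (Y.map Jbar) := inferInstance
    have h2 : Y.map Jbar = LinearMap.range i.toLinearMap := by
      ext v
      constructor
      · rintro ⟨y, ⟨g, hg, rfl⟩, rfl⟩
        obtain ⟨x, hx⟩ := (hWmem g).1 hg
        refine ⟨x, ?_⟩
        change i x = J g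
        exact hx
      · rintro ⟨x, rfl⟩
        obtain ⟨g, hg, -⟩ := hlift x
        refine ⟨Z.mkQ g, ⟨g, (hWmem g).2 ⟨x, hg.symm⟩, rfl⟩, ?_⟩
        exact hg
    rw [h2] at h1
    have hinj : Function.Injective i.toLinearMap := by
      rw [← LinearMap.ker_eq_bot, LinearMap.ker_eq_bot']
      intro x hx
      have h3 := hi x
      have h4 : i x = 0 := hx
      rw [h4, norm_zero, mul_zero] at h3
      exact norm_le_zero_iff.1 h3
    exact (LinearEquiv.ofInjective i.toLinearMap hinj).symm.finiteDimensional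
  · rintro ⟨S, hSY, c, hc, hS⟩
    -- representatives
    have hrep : ∀ f : C₀(ℕ, ℝ), ∃ x : E, ∃ g : G, Z.mkQ g = S f ∧ J g = i x := by
      intro f
      obtain ⟨g, hg⟩ := Z.mkQ_surjective (S f)
      have h1 : g ∈ W := by
        rw [← hYmem, hg]; exact hSY f
      obtain ⟨x, hx⟩ := (hWmem g).1 h1
      exact ⟨x, g, hg, hx.symm⟩
    -- the relation
    let R : C₀(ℕ, ℝ) → E → Prop := fun f x => ∃ g : G, Z.mkQ g = S f ∧ J g = i x
    have hRadd : ∀ f₁ f₂ x₁ x₂ (t : ℝ), R f₁ x₁ → R f₂ x₂ → R (f₁ + t • f₂) (x₁ + t • x₂) := by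
      rintro f₁ f₂ x₁ x₂ t ⟨g₁, h1, h2⟩ ⟨g₂, h3, h4⟩
      exact ⟨g₁ + t • g₂, by simp only [map_add, map_smul, h1, h3], by
        simp only [map_add, map_smul, h2, h4]⟩
    have hRlow : ∀ f x, R f x → c * ‖f‖ ≤ C' * ‖x‖ := by
      rintro f x ⟨g, h1, h2⟩
      obtain ⟨g', h3, h4⟩ := hlift x
      have h5 : Z.mkQ g' = Z.mkQ g := by
        apply (Submodule.Quotient.eq Z).2
        rw [hmem, map_sub, h3, h2, sub_self]
      refine (hS f).trans ?_
      rw [← h1, ← h5]
      exact (Submodule.Quotient.norm_mk_le Z g').trans h4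
    have hRup : ∀ f x, R f x → ‖x‖ ≤ δ * (‖J‖ * ‖S f‖) := by
      rintro f x ⟨g, h1, h2⟩
      refine (hi x).trans ?_
      gcongr
      -- inf over representatives
      apply le_of_forall_pos_le_add
      intro ε hε
      obtain ⟨g', h3, h4⟩ := Submodule.Quotient.norm_mk_lt (S := Z) (S f)
        (ε := ε / (‖J‖ + 1)) (by positivity)
      have h5 : J g' = i x := by
        rw [← h2]
        have h6 : g' - g ∈ Z := (Submodule.Quotient.eq Z).1 (h3.trans h1.symm)
        rw [hmem, map_sub, sub_eq_zero] at h6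
        exact h6
      rw [← h5]
      calc ‖J g'‖ ≤ ‖J‖ * ‖g'‖ := J.le_opNorm g'
        _ ≤ ‖J‖ * (‖S f‖ + ε / (‖J‖ + 1)) := by gcongr
        _ = ‖J‖ * ‖S f‖ + ε * (‖J‖ / (‖J‖ + 1)) := by ring
        _ ≤ ‖J‖ * ‖S f‖ + ε * 1 := by
          gcongr
          rw [div_le_one (by positivity)]
          linarith
        _ = _ := by rw [mul_one]
    set c' := (c / C')^2 with hc'
    have hc'pos : 0 < c' := by positivity
    -- greedy signs
    have hind : ∀ n : ℕ, ∃ (f : C₀(ℕ, ℝ)) (x : E), R f x ∧ ‖f‖ ≤ 1 ∧ (∀ m, n ≤ m → f m = 0) ∧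
        n * c' ≤ ‖x‖^2 := by
      intro n
      induction n with
      | zero =>
        refine ⟨0, 0, ⟨0, by simp, by simp⟩, by simp, fun m _ => rfl, by simp⟩
      | succ n ih =>
        obtain ⟨f, x, hR, hf1, hf2, hx⟩ := ih
        obtain ⟨z, hz⟩ := hrep (e n)
        have hzlow : c / C' ≤ ‖z‖ := by
          have h1 := hRlow (e n) z hz
          have h2 := one_le_norm_e n
          rw [div_le_iff₀ hC']
          nlinarith
        have hz2 : c' ≤ ‖z‖^2 := by
          rw [hc']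
          gcongr
        obtain ⟨t, ht, hin⟩ : ∃ t : ℝ, |t| = 1 ∧ 0 ≤ t * inner ℝ x z := by
          rcases le_total 0 (inner ℝ x z) with h | h
          · exact ⟨1, by simp, by simpa using h⟩
          · exact ⟨-1, by simp, by simpa using h⟩
        refine ⟨f + t • e n, x + t • z, hRadd _ _ _ _ t hR hz, ?_, ?_, ?_⟩
        · apply c0_norm_le zero_le_one
          intro m
          rcases eq_or_ne m n with rfl | hmn
          · change |f m + t * e m m| ≤ 1
            rw [hf2 m le_rfl, e_apply_self, zero_add, mul_one, ht]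
          · change |f m + t * e n m| ≤ 1
            rw [e_apply_ne hmn, mul_zero, add_zero]
            exact (c0_apply_le f m).trans hf1
        · intro m hm
          change f m + t * e n m = 0
          rw [hf2 m (by omega), e_apply_ne (by omega), mul_zero, add_zero]
        · rw [norm_add_sq_real, norm_smul, inner_smul_right, Real.norm_eq_abs, ht, one_mul]
          push_cast
          nlinarith
    obtain ⟨n, hn⟩ := exists_nat_gt ((δ * (‖J‖ * ‖S‖))^2 / c')
    obtain ⟨f, x, hR, hf1, -, hx⟩ := hind n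
    have h1 := hRup f x hR
    have h2 : ‖S f‖ ≤ ‖S‖ := by
      calc ‖S f‖ ≤ ‖S‖ * ‖f‖ := S.le_opNorm f
        _ ≤ ‖S‖ * 1 := by gcongr
        _ = _ := mul_one _
    have h3 : ‖x‖ ≤ δ * (‖J‖ * ‖S‖) := h1.trans (by gcongr)
    have h4 : ‖x‖^2 ≤ (δ * (‖J‖ * ‖S‖))^2 := by gcongr
    rw [div_lt_iff₀ hc'pos] at hn
    linarith

end main

end Pool.Agent.J6H38.C0Sat
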