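import Pool.Agent.J6H38.C0Sat.Process

set_option autoImplicit false

/-!
# The operators
-/

namespace Pool.Agent.J6H38.C0Sat

open Finset
open scoped ENNReal

/-- the Hilbert space `ℓ₂` -/
abbrev E2 : Type := lp (fun _ : ℕ => ℝ) 2

/-- `ℓ_∞` over the index set `A` -/
abbrev VA : Type := lp (fun _ : A => ℝ) ∞

lemma two_toReal : (2 : ℝ≥0∞).toReal = 2 := by norm_num

/-- membership and norm estimate from partial sums -/
lemma exists_l2 (v : ℕ → ℝ) {C : ℝ} (hC : 0 ≤ C) (h : ∀ n, ∑ i ∈ range n, (v i)^2 ≤ C^2) :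
    ∃ x : E2, (∀ i, x i = v i) ∧ ‖x‖ ≤ C := by
  have h1 : ∀ T : Finset ℕ, ∑ i ∈ T, ‖v i‖ ^ (2 : ℝ≥0∞).toReal ≤ C ^ (2 : ℝ≥0∞).toReal := by
    intro T
    rw [two_toReal]
    obtain ⟨n, hn⟩ := T.exists_nat_subset_range
    have h2 : ∀ i, ‖v i‖ ^ (2:ℝ) = (v i)^2 := by
      intro i
      rw [Real.rpow_two, Real.norm_eq_abs, sq_abs]
    simp_rw [h2]
    rw [Real.rpow_two]
    exact (Finset.sum_le_sum_of_subset_of_nonneg hn (fun _ _ _ => by positivity)).trans (h n)
  refine ⟨⟨v, memℓp_gen' h1⟩, fun i => rfl, ?_⟩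
  exact lp.norm_le_of_forall_sum_le (by norm_num) hC h1

/-- the vector represented by an index -/
lemma exists_vec (α : A) : ∃ x : E2, (∀ i, x i = val α i) ∧ ‖x‖ ≤ 1 := by
  apply exists_l2 _ zero_le_one
  intro n
  have := α.2 n
  unfold s at this
  linarith

/-- the vector represented by an index -/
noncomputable def vec (α : A) : E2 := (exists_vec α).choose

lemma vec_apply (α : A) (i : ℕ) : vec α i = val α i := (exists_vec α).choose_spec.1 i

lemma norm_vec_le (α : A) : ‖vec α‖ ≤ 1 := (exists_vec α).choose_spec.2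

lemma abs_inner_vec_le (α : A) (x : E2) : ‖inner ℝ (vec α) x‖ ≤ ‖x‖ := by
  calc ‖inner ℝ (vec α) x‖ ≤ ‖vec α‖ * ‖x‖ := norm_inner_le_norm _ _
    _ ≤ 1 * ‖x‖ := by gcongr; exact norm_vec_le α
    _ = ‖x‖ := one_mul _

/-- the embedding of `ℓ₂` -/
noncomputable def iE : E2 →L[ℝ] VA :=
  LinearMap.mkContinuous
    { toFun := fun x => ⟨fun α => inner ℝ (vec α) x, memℓp_infty ⟨‖x‖, by
        rintro _ ⟨α, rfl⟩; exact abs_inner_vec_le α x⟩⟩
      map_add' := fun x y => by
        ext α
        exact inner_add_right _ _ _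
      map_smul' := fun t x => by
        ext α
        exact inner_smul_right _ _ _ } 1 (by
    intro x
    apply lp.norm_le_of_forall_le (by positivity)
    intro α
    rw [one_mul]
    exact abs_inner_vec_le α x)

lemma iE_apply (x : E2) (α : A) : iE x α = inner ℝ (vec α) x := rfl

lemma iE_lower (x : E2) : ‖x‖ ≤ 6 * ‖iE x‖ := by
  rcases eq_or_ne x 0 with rfl | hx
  · simp
  have hxpos : 0 < ‖x‖ := norm_pos_iff.2 hx
  set y : E2 := (2 * ‖x‖)⁻¹ • x with hy
  have hynorm : ‖y‖ = 1/2 := by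
    rw [hy, norm_smul, norm_inv, norm_mul, Real.norm_ofNat, norm_norm]
    field_simp
  -- the rounded vector
  let α : ℕ → ℤ := fun i => ⌊y i * 2^(i+2)⌋
  have hround : ∀ i, |val α i - y i| ≤ w i := by
    intro i
    have h1 : (⌊y i * 2^(i+2)⌋ : ℝ) ≤ y i * 2^(i+2) := Int.floor_le _
    have h2 : y i * 2^(i+2) < ⌊y i * 2^(i+2)⌋ + 1 := Int.lt_floor_add_one _
    have hw : w i * 2^(i+2) = 1 := by
      unfold w; rw [← mul_pow]; norm_num
    have hw0 := w_pos i
    have h3 : val α i - y i = (⌊y i * 2^(i+2)⌋ - y i * 2^(i+2)) * w i := by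
      unfold val
      have : y i * 2^(i+2) * w i = y i := by rw [mul_assoc, mul_comm _ (w i), hw, mul_one]
      rw [sub_mul, this]
    rw [h3, abs_mul, abs_of_pos hw0]
    have h4 : |(⌊y i * 2^(i+2)⌋ : ℝ) - y i * 2^(i+2)| ≤ 1 := by
      rw [abs_le]; constructor <;> linarith
    calc _ ≤ 1 * w i := by gcongr
      _ = w i := one_mul _
  obtain ⟨z, hz1, hz2⟩ := exists_l2 (fun i => val α i - y i) (C := 1/3) (by norm_num) (by
    intro n
    have h1 : ∀ i ∈ range n, (val α i - y i)^2 ≤ (1/16) * (1/4:ℝ)^i := by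
      intro i _
      have h2 : (val α i - y i)^2 ≤ (w i)^2 := by
        rw [← sq_abs]
        have := hround i
        gcongr
      refine h2.trans (le_of_eq ?_)
      unfold w
      rw [← pow_mul, mul_comm (i+2) 2, pow_mul, pow_add]
      norm_num
      ring
    refine (Finset.sum_le_sum h1).trans ?_
    rw [← Finset.mul_sum, geom_sum_eq (by norm_num)]
    have h0 : (0:ℝ) ≤ (1/4)^n := by positivity
    generalize (1/4:ℝ)^n = t at h0
    have h4 : (t - 1) / (1/4 - 1) = 4/3 * (1 - t) := by ring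
    rw [h4]
    linarith)
  set u : E2 := y + z with hu
  have hui : ∀ i, u i = val α i := by
    intro i
    have : u i = y i + z i := rfl
    rw [this, hz1]
    ring
  have hunorm : ‖u‖ ≤ 5/6 := by
    calc ‖u‖ ≤ ‖y‖ + ‖z‖ := norm_add_le _ _
      _ ≤ 1/2 + 1/3 := by rw [hynorm]; gcongr
      _ = 5/6 := by norm_num
  have hαA : α ∈ A := by
    intro n
    have h1 : s α n = ∑ i ∈ range n, ‖u i‖ ^ (2 : ℝ≥0∞).toReal := by
      unfold s
      apply Finset.sum_congr rfl
      intro i _
      rw [two_toReal, Real.rpow_two, Real.norm_eq_abs, sq_abs, hui]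
    have h2 := lp.sum_rpow_le_norm_rpow (p := 2) (by norm_num) u (range n)
    rw [← h1, two_toReal, Real.rpow_two] at h2
    have h3 : ‖u‖^2 ≤ (5/6)^2 := by gcongr
    norm_num at h3
    linarith
  have hvec : vec ⟨α, hαA⟩ = u := by
    ext i
    rw [vec_apply, hui]
  have h5 : (1/12 : ℝ) ≤ inner ℝ u y := by
    rw [hu, inner_add_left, real_inner_self_eq_norm_sq, hynorm]
    have h6 : |inner ℝ z y| ≤ ‖z‖ * ‖y‖ := abs_real_inner_le_norm _ _
    rw [hynorm] at h6
    have h7 := (abs_le.1 h6).1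
    nlinarith
  have h8 : inner ℝ u y = (2 * ‖x‖)⁻¹ * inner ℝ u x := by
    rw [hy, inner_smul_right]
  have h9 : ‖iE x ⟨α, hαA⟩‖ ≤ ‖iE x‖ := lp.norm_apply_le_norm (by simp) _ _
  rw [iE_apply, hvec, Real.norm_eq_abs] at h9
  have h10 : inner ℝ u x ≤ ‖iE x‖ := (le_abs_self _).trans h9
  rw [h8, inv_mul_eq_div, le_div_iff₀ (by positivity)] at h5
  linarith

instance : CompactSpace K := isCompact_iff_compactSpace.1 isCompact_K

instance : Countable K := K_countable.to_subtype

/-- points of `K` -/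
noncomputable def pt (q : ℕ) (α : A) : K := ⟨Phi q α, Phi_mem α.2 q⟩

lemma summable_J (f : C(K, ℝ)) (α : A) : Summable (fun q => (2/3:ℝ)^q * f (pt q α)) := by
  apply Summable.of_norm_bounded (g := fun q => (2/3:ℝ)^q * ‖f‖)
  · exact (summable_geometric_of_lt_one (by norm_num) (by norm_num)).mul_right _
  · intro q
    rw [norm_mul, Real.norm_of_nonneg (by positivity)]
    gcongr
    exact f.norm_coe_le_norm _

lemma J_bound (f : C(K, ℝ)) (α : A) : ‖∑' q, (2/3:ℝ)^q * f (pt q α)‖ ≤ 3 * ‖f‖ := by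
  have h1 : ∑' q, (2/3:ℝ)^q * ‖f‖ = 3 * ‖f‖ := by
    rw [tsum_mul_right, tsum_geometric_of_lt_one (by norm_num) (by norm_num)]
    norm_num
  rw [← h1]
  apply tsum_of_norm_bounded
  · exact ((summable_geometric_of_lt_one (by norm_num) (by norm_num)).mul_right _).hasSum
  · intro q
    rw [norm_mul, Real.norm_of_nonneg (by positivity)]
    gcongr
    exact f.norm_coe_le_norm _

/-- the operator `J` -/
noncomputable def J : C(K, ℝ) →L[ℝ] VA :=
  LinearMap.mkContinuous
    { toFun := fun f => ⟨fun α => ∑' q, (2/3:ℝ)^q * f (pt q α), memℓp_infty ⟨3 * ‖f‖, by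
        rintro _ ⟨α, rfl⟩; exact J_bound f α⟩⟩
      map_add' := fun f f' => by
        ext α
        change ∑' q, (2/3:ℝ)^q * (f (pt q α) + f' (pt q α)) =
          ∑' q, (2/3:ℝ)^q * f (pt q α) + ∑' q, (2/3:ℝ)^q * f' (pt q α)
        rw [← (summable_J f α).tsum_add (summable_J f' α)]
        simp_rw [mul_add]
      map_smul' := fun t f => by
        ext α
        change ∑' q, (2/3:ℝ)^q * (t * f (pt q α)) = t * ∑' q, (2/3:ℝ)^q * f (pt q α)
        rw [← tsum_mul_left]
        congr 1
        ext q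
        ring } 3 (by
    intro f
    apply lp.norm_le_of_forall_le (by positivity)
    intro α
    exact J_bound f α)

lemma J_apply (f : C(K, ℝ)) (α : A) : J f α = ∑' q, (2/3:ℝ)^q * f (pt q α) := rfl

/-- finitely supported vectors -/
def D : Submodule ℝ E2 where
  carrier := {x | ∃ N, ∀ i, N ≤ i → x i = 0}
  add_mem' := by
    rintro x y ⟨N, hN⟩ ⟨M, hM⟩
    refine ⟨max N M, fun i hi => ?_⟩
    have : (x + y) i = x i + y i := rfl
    rw [this, hN i ((le_max_left _ _).trans hi), hM i ((le_max_right _ _).trans hi), add_zero]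
  zero_mem' := ⟨0, fun i _ => rfl⟩
  smul_mem' := by
    rintro t x ⟨N, hN⟩
    refine ⟨N, fun i hi => ?_⟩
    have : (t • x) i = t * x i := rfl
    rw [this, hN i hi, mul_zero]

lemma dense_D : Dense (D : Set E2) := by
  intro x
  have h1 := lp.hasSum_single (p := 2) (by norm_num) x
  have h2 := h1.tendsto_sum_nat
  apply mem_closure_of_tendsto h2
  apply Filter.Eventually.of_forall
  intro n
  apply Submodule.sum_mem
  intro i _
  refine ⟨i + 1, fun j hj => ?_⟩
  rw [lp.coeFn_single]
  rw [Pi.single_eq_of_ne (by omega)]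

/-- the lift of a finitely supported vector -/
noncomputable def liftF (N : ℕ) (y : ℕ → ℝ) : C(K, ℝ) where
  toFun := fun x => ∑ i ∈ range N, x.1 N i * y i
  continuous_toFun := by
    apply continuous_finsetSum
    intro i _
    apply Continuous.mul _ continuous_const
    exact (continuous_apply i).comp ((continuous_apply N).comp continuous_subtype_val)

lemma liftF_apply (N : ℕ) (y : ℕ → ℝ) (x : K) :
    liftF N y x = ∑ i ∈ range N, x.1 N i * y i := rfl

lemma norm_liftF_le (N : ℕ) (y : ℕ → ℝ) :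
    ‖liftF N y‖ ≤ Real.sqrt (∑ i ∈ range N, (y i)^2) := by
  rw [ContinuousMap.norm_le _ (Real.sqrt_nonneg _)]
  rintro ⟨x, hx⟩
  rw [liftF_apply, Real.norm_eq_abs]
  rcases hx with hx | hx
  · rw [Set.mem_singleton_iff] at hx
    subst hx
    simp
  · obtain ⟨q, α, hα, rfl⟩ := Set.mem_iUnion.1 hx
    exact abs_pair_le q α N y

lemma lift_D (y : E2) (hy : y ∈ D) : ∃ f, J f = iE y ∧ ‖f‖ ≤ 1 * ‖y‖ := by
  obtain ⟨N, hN⟩ := hy
  refine ⟨liftF N y, ?_, ?_⟩
  · ext α
    rw [J_apply, iE_apply]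
    have h1 : HasSum (fun q => (2/3:ℝ)^q * liftF N y (pt q α))
        (∑ i ∈ range N, val α i * y i) := by
      have h2 : ∀ q, (2/3:ℝ)^q * liftF N y (pt q α) =
          ∑ i ∈ range N, (2/3:ℝ)^q * Phi q α N i * y i := by
        intro q
        rw [liftF_apply, Finset.mul_sum]
        apply Finset.sum_congr rfl
        intro i _
        unfold pt
        ring
      simp_rw [h2]
      apply hasSum_sum
      intro i hi
      exact (Phi_hasSum α.2 (Finset.mem_range.1 hi)).mul_right _
    rw [h1.tsum_eq]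
    have h3 : HasSum (fun i => inner ℝ (vec α i) (y i)) (inner ℝ (vec α) y) :=
      lp.hasSum_inner (vec α) y
    have h4 : HasSum (fun i => inner ℝ (vec α i) (y i)) (∑ i ∈ range N, val α i * y i) := by
      have h5 : ∀ i, inner ℝ (vec α i) (y i) = val α i * y i := by
        intro i
        rw [vec_apply]
        simp [mul_comm]
      simp_rw [h5]
      apply hasSum_sum_of_ne_finset_zero
      intro i hi
      have : N ≤ i := by simpa using hi
      rw [hN i this, mul_zero]
    exact h4.unique h3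
  · rw [one_mul]
    refine (norm_liftF_le N y).trans ?_
    have h2 := lp.sum_rpow_le_norm_rpow (p := 2) (by norm_num) y (range N)
    rw [two_toReal, Real.rpow_two] at h2
    rw [Real.sqrt_le_left (norm_nonneg _)]
    refine le_trans (le_of_eq ?_) h2
    apply Finset.sum_congr rfl
    intro i _
    rw [Real.rpow_two, Real.norm_eq_abs, sq_abs]

lemma not_finiteDimensional : ¬ FiniteDimensional ℝ E2 := by
  intro h
  have hli : LinearIndependent ℝ (fun n : ℕ => (lp.single 2 n (1:ℝ) : E2)) := by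
    apply Orthonormal.linearIndependent
    constructor
    · intro i
      rw [lp.norm_single (by norm_num)]
      simp
    · intro i j hij
      rw [lp.inner_single_left, lp.coeFn_single, Pi.single_eq_of_ne hij]
      simp
  have := hli.finite
  exact not_finite ℕ

end Pool.Agent.J6H38.C0Sat
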