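import Mathlib

set_option autoImplicit false

/-!
# The combinatorial part of the counterexample

Integer sequences `α` stand for the vectors `(α i * 2^{-(i+2)})_i` of (the unit ball of) `ℓ₂`.
`s α n` is the energy of the first `n` coordinates, `g α q n` its discretization at scale `4^{-q}`.
`Phi q α` is the (normalized) scale-`q` label process of `α`.
-/

namespace Pool.Agent.J6H38.C0Sat

open Finset

/-- weights -/
noncomputable def w (i : ℕ) : ℝ := (1/2)^(i+2)

/-- value of a coordinate -/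
noncomputable def val (α : ℕ → ℤ) (i : ℕ) : ℝ := (α i : ℝ) * w i

/-- energy of the first `n` coordinates -/
noncomputable def s (α : ℕ → ℤ) (n : ℕ) : ℝ := ∑ i ∈ range n, (val α i)^2

/-- discretized energy -/
noncomputable def g (α : ℕ → ℤ) (q n : ℕ) : ℕ := ⌊(4:ℝ)^q * s α n⌋₊

/-- the index set: discretized vectors of energy at most `3/4` -/
def A : Set (ℕ → ℤ) := {α | ∀ n, s α n ≤ 3/4}

open Classical in
/-- the label process -/
noncomputable def Phi (q : ℕ) (α : ℕ → ℤ) (N i : ℕ) : ℝ :=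
  if i < N ∧ g α q i = g α q N ∧ g α (q+1) i ≠ g α (q+1) N then (3/2)^q * val α i else 0

lemma w_pos (i : ℕ) : 0 < w i := by unfold w; positivity

lemma s_nonneg (α : ℕ → ℤ) (n : ℕ) : 0 ≤ s α n := by
  unfold s; positivity

lemma s_mono (α : ℕ → ℤ) : Monotone (s α) := by
  intro m n h
  unfold s
  exact Finset.sum_le_sum_of_subset_of_nonneg (Finset.range_mono h) (fun _ _ _ => by positivity)

lemma g_mono (α : ℕ → ℤ) (q : ℕ) : Monotone (g α q) := by
  intro m n h
  unfold g
  apply Nat.floor_mono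
  exact mul_le_mul_of_nonneg_left (s_mono α h) (by positivity)

lemma g_le {α : ℕ → ℤ} (hα : α ∈ A) (q n : ℕ) : g α q n ≤ 4^q := by
  unfold g
  apply Nat.floor_le_of_le
  have h := hα n
  push_cast
  calc (4:ℝ)^q * s α n ≤ 4^q * (3/4) := mul_le_mul_of_nonneg_left h (by positivity)
    _ ≤ 4^q := by
      have : (0:ℝ) < 4^q := by positivity
      linarith

lemma g_zero {α : ℕ → ℤ} (hα : α ∈ A) (n : ℕ) : g α 0 n = 0 := by
  unfold g
  have h := hα n
  rw [Nat.floor_eq_zero]
  simp only [pow_zero, one_mul]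
  linarith

lemma g_div (α : ℕ → ℤ) (q n : ℕ) : g α q n = g α (q+1) n / 4 := by
  unfold g
  rw [← Nat.floor_div_ofNat]
  congr 1
  rw [pow_succ]
  ring

lemma g_eq_of_succ {α : ℕ → ℤ} {q i n : ℕ} (h : g α (q+1) i = g α (q+1) n) :
    g α q i = g α q n := by
  rw [g_div α q i, g_div α q n, h]

lemma s_congr {α β : ℕ → ℤ} {n : ℕ} (h : ∀ i < n, α i = β i) : s α n = s β n := by
  unfold s
  apply Finset.sum_congr rfl
  intro i hi
  unfold val
  rw [h i (Finset.mem_range.1 hi)]

lemma g_congr {α β : ℕ → ℤ} {n : ℕ} (q : ℕ) (h : ∀ i < n, α i = β i) : g α q n = g β q n := by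
  unfold g
  rw [s_congr h]

lemma Phi_congr {α β : ℕ → ℤ} {N : ℕ} (q : ℕ) (h : ∀ i < N, α i = β i) (i : ℕ) :
    Phi q α N i = Phi q β N i := by
  unfold Phi
  by_cases hi : i < N
  · have h1 : ∀ j < i, α j = β j := fun j hj => h j (hj.trans hi)
    rw [g_congr q h1, g_congr q h, g_congr (q+1) h1, g_congr (q+1) h]
    unfold val
    rw [h i hi]
  · simp [hi]

lemma continuous_Phi (q : ℕ) : Continuous (Phi q) := by
  apply continuous_pi
  intro N
  apply continuous_pi
  intro i
  rw [continuous_iff_continuousAt]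
  intro α
  have hopen : ∀ᶠ β in nhds α, ∀ j < N, β j = α j := by
    have h1 : ∀ j ∈ Finset.range N, ∀ᶠ β in nhds α, β j = α j := by
      intro j _
      have h2 : ContinuousAt (fun β : ℕ → ℤ => β j) α := (continuous_apply j).continuousAt
      have h3 : {α j} ∈ nhds (α j) := by
        rw [nhds_discrete]; simp
      exact h2 h3
    have h4 := (Filter.eventually_all_finset (Finset.range N)).2 h1
    filter_upwards [h4] with β hβ j hj
    exact hβ j (Finset.mem_range.2 hj)
  apply ContinuousAt.congr (f := fun _ => Phi q α N i) continuousAt_const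
  filter_upwards [hopen] with β hβ
  exact (Phi_congr q hβ i).symm

lemma continuous_s (n : ℕ) : Continuous (fun α : ℕ → ℤ => s α n) := by
  unfold s val
  apply continuous_finsetSum
  intro i _
  have : Continuous (fun α : ℕ → ℤ => ((α i : ℤ) : ℝ)) :=
    continuous_of_discreteTopology.comp (continuous_apply i)
  exact (this.mul continuous_const).pow 2

lemma val_sq_le {α : ℕ → ℤ} (hα : α ∈ A) (i : ℕ) : (val α i)^2 ≤ 3/4 := by
  have h := hα (i+1)
  unfold s at h
  rw [Finset.sum_range_succ] at h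
  have : 0 ≤ ∑ j ∈ range i, (val α j)^2 := by positivity
  linarith

lemma abs_le_of_mem {α : ℕ → ℤ} (hα : α ∈ A) (i : ℕ) : |α i| ≤ 2^(i+2) := by
  have h := val_sq_le hα i
  have h1 : |val α i| ≤ 1 := by
    rw [← abs_one, ← sq_le_sq]
    linarith
  unfold val w at h1
  rw [abs_mul, abs_of_pos (a := ((1/2:ℝ)^(i+2))) (by positivity)] at h1
  have h2 : |(α i : ℝ)| ≤ 2^(i+2) := by
    have h3 : (0:ℝ) < 2^(i+2) := by positivity
    have h4 : (1/2:ℝ)^(i+2) = 1 / 2^(i+2) := by rw [one_div_pow]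
    rw [h4, mul_one_div, div_le_one h3] at h1
    exact h1
  exact_mod_cast h2

lemma isCompact_A : IsCompact A := by
  have h1 : IsClosed A := by
    have : A = ⋂ n, {α : ℕ → ℤ | s α n ≤ 3/4} := by
      ext α; simp [A]
    rw [this]
    apply isClosed_iInter
    intro n
    exact isClosed_le (continuous_s n) continuous_const
  have h2 : IsCompact (Set.univ.pi (fun i : ℕ => Set.Icc (-(2:ℤ)^(i+2)) (2^(i+2)))) := by
    apply isCompact_univ_pi
    intro i
    exact (Set.finite_Icc _ _).isCompact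
  apply h2.of_isClosed_subset h1
  intro α hα i _
  have := abs_le_of_mem hα i
  rw [abs_le] at this
  exact this

/-- truncation -/
def trunc (α : ℕ → ℤ) (M : ℕ) : ℕ → ℤ := fun i => if i < M then α i else 0

lemma s_trunc_of_le {α : ℕ → ℤ} {M n : ℕ} (h : n ≤ M) : s (trunc α M) n = s α n := by
  apply s_congr
  intro i hi
  simp [trunc, hi.trans_le h]

lemma s_trunc_of_ge {α : ℕ → ℤ} {M n : ℕ} (h : M ≤ n) : s (trunc α M) n = s α M := by
  unfold s
  rw [← Finset.sum_range_add_sum_Ico _ h]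
  rw [Finset.sum_eq_zero (s := Finset.Ico M n), add_zero]
  · apply Finset.sum_congr rfl
    intro i hi
    unfold val
    simp [trunc, Finset.mem_range.1 hi]
  · intro i hi
    have := (Finset.mem_Ico.1 hi).1
    unfold val
    simp [trunc, not_lt.2 this]

lemma trunc_mem {α : ℕ → ℤ} (hα : α ∈ A) (M : ℕ) : trunc α M ∈ A := by
  intro n
  rcases le_total n M with h | h
  · rw [s_trunc_of_le h]; exact hα n
  · rw [s_trunc_of_ge h]; exact hα M

lemma exists_stable {α : ℕ → ℤ} (hα : α ∈ A) (q : ℕ) :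
    ∃ M, ∀ n, M ≤ n → g α q n = g α q M := by
  have hbdd : BddAbove (Set.range (g α q)) := ⟨4^q, by rintro _ ⟨n, rfl⟩; exact g_le hα q n⟩
  obtain ⟨M, hM⟩ := Nat.sSup_mem (Set.range_nonempty (g α q)) hbdd
  refine ⟨M, fun n hn => le_antisymm ?_ (g_mono α q hn)⟩
  rw [hM]
  exact le_csSup hbdd ⟨n, rfl⟩

lemma Phi_trunc {α : ℕ → ℤ} {q M : ℕ} (hM : ∀ n, M ≤ n → g α (q+1) n = g α (q+1) M) :
    Phi q (trunc α M) = Phi q α := by
  funext N i
  rcases le_total N M with h | h
  · apply Phi_congr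
    intro j hj
    simp [trunc, hj.trans_le h]
  · unfold Phi
    have hgN : ∀ p, g (trunc α M) p N = g α p M := by
      intro p; unfold g; rw [s_trunc_of_ge h]
    have h1 : g α (q+1) N = g α (q+1) M := hM N h
    have h2 : g α q N = g α q M := g_eq_of_succ h1
    rcases lt_or_ge i M with hi | hi
    · have hgi : ∀ p, g (trunc α M) p i = g α p i := by
        intro p; unfold g; rw [s_trunc_of_le hi.le]
      rw [hgN, hgN, hgi, hgi, h1, h2]
      have : val (trunc α M) i = val α i := by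
        unfold val; simp [trunc, hi]
      rw [this]
    · have h3 : val (trunc α M) i = 0 := by
        unfold val; simp [trunc, not_lt.2 hi]
      rw [h3, mul_zero]
      have h4 : g α (q+1) i = g α (q+1) N := by rw [hM i hi, h1]
      simp [h4]

/-- the (underlying set of the) compact space -/
def K : Set (ℕ → ℕ → ℝ) := {0} ∪ ⋃ q, Phi q '' A

lemma Phi_mem {α : ℕ → ℤ} (hα : α ∈ A) (q : ℕ) : Phi q α ∈ K := by
  right
  exact Set.mem_iUnion.2 ⟨q, α, hα, rfl⟩

lemma K_countable : K.Countable := by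
  have h : K ⊆ {0} ∪ ⋃ q : ℕ, (fun b : ℕ →₀ ℤ => Phi q b) '' Set.univ := by
    rintro x (hx | hx)
    · left; exact hx
    · obtain ⟨q, α, hα, rfl⟩ := Set.mem_iUnion.1 hx
      right
      refine Set.mem_iUnion.2 ⟨q, ?_⟩
      obtain ⟨M, hM⟩ := exists_stable hα (q+1)
      refine ⟨Finsupp.ofSupportFinite (trunc α M) ?_, Set.mem_univ _, ?_⟩
      · apply (Set.finite_lt_nat M).subset
        intro i hi
        by_contra hcon
        apply hi
        simp only [Set.mem_ofPred_eq] at hcon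
        simp [trunc, hcon]
      · exact Phi_trunc hM
  apply Set.Countable.mono h
  apply Set.Countable.union (Set.countable_singleton 0)
  apply Set.countable_iUnion
  intro q
  exact (Set.countable_univ).image _

/-- the basic energy estimate -/
lemma sum_sq_le (α : ℕ → ℤ) (q N : ℕ) (T : Finset ℕ)
    (hT : ∀ i ∈ T, i < N ∧ g α q i = g α q N) :
    ∑ i ∈ T, (val α i)^2 ≤ (1/4:ℝ)^q := by
  rcases T.eq_empty_or_nonempty with rfl | hne
  · simp
  · set t := T.min' hne with ht
    have htT : t ∈ T := T.min'_mem hne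
    obtain ⟨htN, hgt⟩ := hT t htT
    have hsub : T ⊆ Finset.Ico t N := by
      intro i hi
      exact Finset.mem_Ico.2 ⟨T.min'_le i hi, (hT i hi).1⟩
    have h1 : ∑ i ∈ T, (val α i)^2 ≤ ∑ i ∈ Finset.Ico t N, (val α i)^2 :=
      Finset.sum_le_sum_of_subset_of_nonneg hsub (fun _ _ _ => by positivity)
    have h2 : ∑ i ∈ Finset.Ico t N, (val α i)^2 = s α N - s α t := by
      unfold s
      rw [← Finset.sum_range_add_sum_Ico _ htN.le]
      ring
    have h3 : (4:ℝ)^q * s α N < g α q N + 1 := Nat.lt_floor_add_one _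
    have h4 : (g α q t : ℝ) ≤ (4:ℝ)^q * s α t :=
      Nat.floor_le (mul_nonneg (by positivity) (s_nonneg α t))
    rw [hgt] at h4
    have h5 : (4:ℝ)^q * (s α N - s α t) ≤ 1 := by linarith [h3, h4]
    rw [h2] at h1
    apply h1.trans
    rw [one_div_pow, le_div_iff₀ (by positivity)]
    linarith

lemma exists_g_ne {α : ℕ → ℤ} {i N : ℕ} (hi : i < N) (hv : val α i ≠ 0) :
    ∃ Q, ∀ q, Q ≤ q → g α q i ≠ g α q N := by
  have hpos : 0 < (val α i)^2 := by positivity
  obtain ⟨Q, hQ⟩ := exists_pow_lt_of_lt_one hpos (show (1/4:ℝ) < 1 by norm_num)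
  refine ⟨Q, fun q hq heq => ?_⟩
  have h1 := sum_sq_le α q N {i} (by
    intro j hj
    rw [Finset.mem_singleton] at hj
    subst hj
    exact ⟨hi, heq⟩)
  rw [Finset.sum_singleton] at h1
  have h2 : (1/4:ℝ)^q ≤ (1/4:ℝ)^Q := pow_le_pow_of_le_one (by norm_num) (by norm_num) hq
  linarith

open Classical in
/-- telescoping -/
lemma Phi_partial_sum {α : ℕ → ℤ} (hα : α ∈ A) {i N : ℕ} (hi : i < N) (Q : ℕ) :
    ∑ q ∈ range Q, (2/3:ℝ)^q * Phi q α N i = if g α Q i = g α Q N then 0 else val α i := by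
  induction Q with
  | zero => simp [g_zero hα]
  | succ Q ih =>
    rw [Finset.sum_range_succ, ih]
    unfold Phi
    have hk : (2/3:ℝ)^Q * ((3/2)^Q * val α i) = val α i := by
      rw [← mul_assoc, ← mul_pow]; norm_num
    by_cases h1 : g α (Q+1) i = g α (Q+1) N
    · have h2 := g_eq_of_succ h1
      simp [h1, h2]
    · by_cases h2 : g α Q i = g α Q N
      · simp only [hi, h1, h2, if_true, if_false, true_and, not_false_eq_true, ne_eq, hk, zero_add]
      · simp [h1, h2]

lemma Phi_hasSum {α : ℕ → ℤ} (hα : α ∈ A) {i N : ℕ} (hi : i < N) :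
    HasSum (fun q => (2/3:ℝ)^q * Phi q α N i) (val α i) := by
  by_cases hv : val α i = 0
  · have : (fun q => (2/3:ℝ)^q * Phi q α N i) = fun _ => 0 := by
      funext q
      unfold Phi
      simp [hv]
    rw [this, hv]
    exact hasSum_zero
  · obtain ⟨Q, hQ⟩ := exists_g_ne hi hv
    have h1 := Phi_partial_sum hα hi Q
    rw [if_neg (hQ Q le_rfl)] at h1
    rw [← h1]
    apply hasSum_sum_of_ne_finset_zero
    intro q hq
    have hq' : Q ≤ q := by simpa using hq
    unfold Phi
    have := hQ q hq'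
    simp [this]

/-- uniform smallness -/
lemma abs_Phi_le (q : ℕ) (α : ℕ → ℤ) (N i : ℕ) : |Phi q α N i| ≤ (3/4:ℝ)^q := by
  unfold Phi
  split_ifs with h
  · rw [abs_mul, abs_of_pos (a := (3/2:ℝ)^q) (by positivity)]
    have h1 := sum_sq_le α q N {i} (by
      intro j hj
      rw [Finset.mem_singleton] at hj
      subst hj
      exact ⟨h.1, h.2.1⟩)
    rw [Finset.sum_singleton] at h1
    have h2 : |val α i| ≤ (1/2:ℝ)^q := by
      rw [← abs_of_pos (a := (1/2:ℝ)^q) (by positivity), ← sq_le_sq, ← pow_mul, mul_comm q 2,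
        pow_mul]
      norm_num
      norm_num at h1
      exact h1
    calc (3/2:ℝ)^q * |val α i| ≤ (3/2:ℝ)^q * (1/2:ℝ)^q := by gcongr
      _ = (3/4:ℝ)^q := by rw [← mul_pow]; norm_num
  · simp; positivity

/-- pairing estimate -/
lemma abs_pair_le (q : ℕ) (α : ℕ → ℤ) (N : ℕ) (y : ℕ → ℝ) :
    |∑ i ∈ range N, Phi q α N i * y i| ≤ Real.sqrt (∑ i ∈ range N, (y i)^2) := by
  classical
  have h1 : (∑ i ∈ range N, Phi q α N i * y i)^2 ≤
      (∑ i ∈ range N, (Phi q α N i)^2) * (∑ i ∈ range N, (y i)^2) :=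
    Finset.sum_mul_sq_le_sq_mul_sq _ _ _
  have h2 : ∑ i ∈ range N, (Phi q α N i)^2 ≤ 1 := by
    have h3 : ∑ i ∈ range N, (Phi q α N i)^2 =
        ∑ i ∈ (range N).filter (fun i => i < N ∧ g α q i = g α q N ∧ g α (q+1) i ≠ g α (q+1) N),
          ((3/2:ℝ)^q * val α i)^2 := by
      rw [Finset.sum_filter]
      apply Finset.sum_congr rfl
      intro i _
      unfold Phi
      split_ifs <;> simp
    rw [h3]
    have h4 := sum_sq_le α q N
      ((range N).filter (fun i => i < N ∧ g α q i = g α q N ∧ g α (q+1) i ≠ g α (q+1) N)) (by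
        intro i hi
        have := (Finset.mem_filter.1 hi).2
        exact ⟨this.1, this.2.1⟩)
    simp_rw [mul_pow]
    rw [← Finset.mul_sum]
    calc ((3/2:ℝ)^q)^2 * _ ≤ ((3/2:ℝ)^q)^2 * (1/4:ℝ)^q := by gcongr
      _ = (9/16:ℝ)^q := by
        rw [← pow_mul, mul_comm q 2, pow_mul, ← mul_pow]; norm_num
      _ ≤ 1 := pow_le_one₀ (by norm_num) (by norm_num)
  apply Real.abs_le_sqrt
  calc _ ≤ _ := h1
    _ ≤ 1 * (∑ i ∈ range N, (y i)^2) := by gcongr
    _ = _ := one_mul _

lemma isCompact_K : IsCompact K := by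
  rw [isCompact_iff_ultrafilter_le_nhds]
  intro 𝒰 h𝒰
  by_cases hex : ∃ q, Phi q '' A ∈ 𝒰
  · obtain ⟨q, hq⟩ := hex
    have hc : IsCompact (Phi q '' A) := isCompact_A.image (continuous_Phi q)
    obtain ⟨x, hx, hx2⟩ := isCompact_iff_ultrafilter_le_nhds.1 hc 𝒰 (Filter.le_principal_iff.2 hq)
    exact ⟨x, Or.inr (Set.mem_iUnion.2 ⟨q, hx⟩), hx2⟩
  · push Not at hex
    refine ⟨0, Or.inl rfl, ?_⟩
    have hK : K ∈ 𝒰 := Filter.le_principal_iff.1 h𝒰
    have h1 : ∀ Q : ℕ, ∀ᶠ x in (𝒰 : Filter (ℕ → ℕ → ℝ)), ∀ N i, |x N i| ≤ (3/4:ℝ)^Q := by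
      intro Q
      have h2 : ∀ q ∈ range Q, ∀ᶠ x in (𝒰 : Filter (ℕ → ℕ → ℝ)), x ∉ Phi q '' A := by
        intro q _
        exact Ultrafilter.compl_mem_iff_notMem.2 (hex q)
      have h3 := (Filter.eventually_all_finset (range Q)).2 h2
      filter_upwards [hK, h3] with x hx hx3 N i
      rcases hx with hx | hx
      · rw [Set.mem_singleton_iff.1 hx]
        simp; positivity
      · obtain ⟨q, hq⟩ := Set.mem_iUnion.1 hx
        have hqQ : Q ≤ q := by
          by_contra hcon
          exact hx3 q (Finset.mem_range.2 (not_le.1 hcon)) hq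
        obtain ⟨α, hα, rfl⟩ := hq
        exact (abs_Phi_le q α N i).trans (pow_le_pow_of_le_one (by norm_num) (by norm_num) hqQ)
    have h4 : Filter.Tendsto (fun x : ℕ → ℕ → ℝ => x) 𝒰 (nhds 0) := by
      rw [tendsto_pi_nhds]
      intro N
      rw [tendsto_pi_nhds]
      intro i
      rw [Metric.tendsto_nhds]
      intro ε hε
      obtain ⟨Q, hQ⟩ := exists_pow_lt_of_lt_one hε (show (3/4:ℝ) < 1 by norm_num)
      filter_upwards [h1 Q] with x hx
      simp only [Pi.zero_apply, dist_zero_right, Real.norm_eq_abs]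
      exact (hx N i).trans_lt hQ
    exact h4

end Pool.Agent.J6H38.C0Sat
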